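import Pool.Agent.Helper45.CR.Fin

set_option autoImplicit false

namespace Pool.Agent.Results.MP_2d7e0f_pr.OrderOfMagnitude

open Filter Asymptotics Pool.Agent.Helper43.Copula

/-- With `s_n` the supremum of the measures of the sets on which some `n`-copula attains the lower
Frechet bound: `(n/2 + 1) e^(-n) - 1/n! ≤ 1 - s_n ≤ min (128 n e^(-n)) (n!/n^(n-1))` for all `n ≥ 1`
and `(n/2) e^(-n) ≤ 1 - s_n` for all `n ≥ 6`, so `1 - s_n` has the exact order of magnitude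
`n e^(-n)`. -/
theorem result :
    (∀ n : ℕ, 1 ≤ n →
      ((n : ℝ) / 2 + 1) * Real.exp (-(n : ℝ)) - 1 / (n.factorial : ℝ) ≤
        1 - (maxAgreement n).toReal ∧
      1 - (maxAgreement n).toReal ≤
        min (128 * (n : ℝ) * Real.exp (-(n : ℝ))) ((n.factorial : ℝ) / (n : ℝ) ^ (n - 1))) ∧
    (∀ n : ℕ, 6 ≤ n →
      (n : ℝ) / 2 * Real.exp (-(n : ℝ)) ≤ 1 - (maxAgreement n).toReal) ∧
    (fun n : ℕ => 1 - (maxAgreement n).toReal) =Θ[atTop]
      (fun n : ℕ => (n : ℝ) * Real.exp (-(n : ℝ))) := by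
  refine ⟨fun n hn => ⟨?_, le_min (Pool.Agent.Helper45.CR.gap_le_all hn) ?_⟩,
    fun n hn => Pool.Agent.Helper45.CR.gap_ge' hn, Pool.Agent.Helper45.CR.theta⟩
  · have h := Pool.Agent.Helper45.CR.gap_ge (n := n) hn
    have e : ((n : ℝ) / 2 + 1) = ((n : ℝ) + 2) / 2 := by ring
    rw [e]
    exact h
  · have h := Pool.Agent.Helper3.Cop.lower_bound (n := n) hn
    linarith

end Pool.Agent.Results.MP_2d7e0f_pr.OrderOfMagnitude
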