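import Pool.Agent.H54Sharp.UpperAll
import Pool.Agent.Helper72.SH.Lower

set_option autoImplicit false

namespace Pool.Agent.Results.MP_2d7e0f_pr.SharpAsymptotics

open Filter Topology Pool.Agent.Helper43.Copula

/-- `1 - s_n` is asymptotic to `(exp (1 + γ) / 2) n exp (-n)`, where `γ` is Euler's constant. -/
theorem result : Tendsto (fun n : ℕ => (1 - (maxAgreement n).toReal) * Real.exp n / n) atTop
    (𝓝 (Real.exp (1 + Real.eulerMascheroniConstant) / 2)) :=
  Pool.Agent.H54Sharp.tendsto_of_halves Pool.Agent.H54Sharp.upper_all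
    Pool.Agent.Helper72.SH.lowerHalf

end Pool.Agent.Results.MP_2d7e0f_pr.SharpAsymptotics
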