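import Mathlib
import Pool.Agent.Helper43.Copula
import Pool.Agent.Helper43.CopulaCompact
set_option autoImplicit false

namespace Pool.Agent.Results.MP_2d7e0f_pr.SupremumAttained

open MeasureTheory Pool.Agent.Helper43.Copula

/-- For every `n` the supremum `s_n` is attained: some `n`-copula `C` agrees with the lower Fréchet
bound exactly on a subset of the cube of Lebesgue measure `s_n`. -/
theorem result (n : ℕ) : ∃ C : (Fin n → ℝ) → ℝ, IsCopula n C ∧
    volume {x | x ∈ cube n ∧ C x = lowerFrechet n x} = maxAgreement n :=
  attained n

end Pool.Agent.Results.MP_2d7e0f_pr.SupremumAttained
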