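import Pool.Agent.Helper3.Cop.ThreeBound
import Pool.Agent.H54Cop.Exact
import Pool.Agent.Helper24.Cop3.PhiTwo

set_option autoImplicit false

namespace Pool.Agent.Results.MP_2d7e0f_pr.ThreeDimensional

open Pool.Agent.Helper43.Copula Pool.Agent.Helper3.Cop

/-- The supremum `s_3` of the measures of the sets on which some `3`-copula attains the lower
Frechet bound is `43/54`. -/
theorem result : maxAgreement 3 = ENNReal.ofReal (43 / 54) := by
  have h1 : (maxAgreement 3).toReal ≤ 43 / 54 := by
    refine Pool.Agent.H54Cop.three_le (K := 6) fun M hM w hw h0 => ?_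
    refine (Pool.Agent.Helper24.Cop3.phi_ge M hM hw h0).trans (le_of_eq ?_)
    apply Finset.sum_congr rfl
    intro P _
    unfold Pool.Agent.Helper24.Cop3.Mixed
    congr
  rw [← le_antisymm h1 three_bound]
  exact (ENNReal.ofReal_toReal maxAgreement_ne_top).symm

end Pool.Agent.Results.MP_2d7e0f_pr.ThreeDimensional
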